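import Pool.Agent.THX.Stmts

/-!
# Squad THX, module PRM: a small prime which does not divide a given number
-/

namespace Pool.Agent.THX.H59

open Finset

theorem exists_prime (k j N : ℕ) (hN : N ≠ 0) (h : N < (2 ^ k) ^ j) :
    ∃ p : ℕ, p.Prime ∧ ¬ p ∣ N ∧ p ≤ 2 ^ (j + k) := by
  classical
  have hex : ∀ t : ℕ, ∃ p : ℕ, p.Prime ∧ 2 ^ (j + t) < p ∧ p ≤ 2 * 2 ^ (j + t) := fun t =>
    Nat.exists_prime_lt_and_le_two_mul (2 ^ (j + t)) (by positivity)
  choose p hp hlt hle using hex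
  have hmono : StrictMono p := by
    apply strictMono_nat_of_lt_succ
    intro t
    calc p t ≤ 2 * 2 ^ (j + t) := hle t
      _ = 2 ^ (j + (t + 1)) := by rw [← add_assoc, pow_succ]; ring
      _ < p (t + 1) := hlt (t + 1)
  by_contra hcon
  push Not at hcon
  have hdvd : ∀ t ∈ range k, p t ∣ N := by
    intro t ht
    by_contra hnd
    have h1 := hcon (p t) (hp t) hnd
    have h2 : p t ≤ 2 ^ (j + k) := by
      calc p t ≤ 2 * 2 ^ (j + t) := hle t
        _ = 2 ^ (j + t + 1) := by rw [pow_succ]; ring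
        _ ≤ 2 ^ (j + k) := Nat.pow_le_pow_right (by norm_num) (by have := mem_range.1 ht; omega)
    omega
  have hprod : (∏ q ∈ (range k).image p, q) ∣ N := by
    apply Finset.prod_primes_dvd
    · intro a ha
      obtain ⟨t, -, rfl⟩ := mem_image.1 ha
      exact (hp t).prime
    · intro a ha
      obtain ⟨t, ht, rfl⟩ := mem_image.1 ha
      exact hdvd t ht
  rw [Finset.prod_image (fun a _ b _ hab => hmono.injective hab)] at hprod
  have h3 : (2 ^ k) ^ j ≤ ∏ t ∈ range k, p t := by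
    calc (2 ^ k) ^ j = ∏ _t ∈ range k, 2 ^ j := by
          rw [Finset.prod_const, card_range, ← pow_mul, ← pow_mul, mul_comm]
      _ ≤ ∏ t ∈ range k, p t := by
          apply Finset.prod_le_prod'
          intro t _
          exact ((Nat.pow_le_pow_right (by norm_num) (by omega)).trans (hlt t).le)
  have h4 := Nat.le_of_dvd (Nat.pos_of_ne_zero hN) hprod
  omega

theorem prm : PrmStmt := by
  intro ε hε
  obtain ⟨k, hk⟩ := exists_nat_gt (1 / ε)
  have hk0 : (0 : ℝ) < k := lt_trans (by positivity) hk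
  have hk1 : 0 < k := by exact_mod_cast hk0
  refine ⟨2 ^ (k + 1), fun N hN => ?_⟩
  have h2k : 1 < 2 ^ k := Nat.one_lt_two_pow (by omega)
  obtain ⟨p, hp, hnd, hle⟩ := exists_prime k (Nat.log (2 ^ k) N + 1) N hN
    (Nat.lt_pow_succ_log_self h2k N)
  refine ⟨p, hp, hnd, ?_⟩
  set j := Nat.log (2 ^ k) N with hj
  have h1 : (2 ^ k) ^ j ≤ N := Nat.pow_log_le_self _ hN
  have h1' : ((2 : ℝ) ^ j) ^ k ≤ (N : ℝ) := by
    have : (((2 ^ k) ^ j : ℕ) : ℝ) ≤ (N : ℝ) := by exact_mod_cast h1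
    calc ((2 : ℝ) ^ j) ^ k = (((2 ^ k) ^ j : ℕ) : ℝ) := by
          push_cast
          rw [← pow_mul, ← pow_mul, mul_comm]
      _ ≤ N := this
  have hN1 : (1 : ℝ) ≤ N := by exact_mod_cast Nat.one_le_iff_ne_zero.2 hN
  have h2 : (2 : ℝ) ^ j ≤ (N : ℝ) ^ ε := by
    have h3 : ((2 : ℝ) ^ j) ≤ (N : ℝ) ^ ((1 : ℝ) / k) := by
      have h4 : (((2 : ℝ) ^ j) ^ k) ^ ((1 : ℝ) / k) ≤ (N : ℝ) ^ ((1 : ℝ) / k) :=
        Real.rpow_le_rpow (by positivity) h1' (by positivity)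
      rwa [← Real.rpow_natCast ((2 : ℝ) ^ j) k, ← Real.rpow_mul (by positivity),
        mul_one_div_cancel hk0.ne', Real.rpow_one] at h4
    refine h3.trans (Real.rpow_le_rpow_of_exponent_le hN1 ?_)
    rw [div_le_iff₀ hk0]
    have := (div_lt_iff₀ hε).1 hk
    linarith
  calc (p : ℝ) ≤ ((2 ^ (j + 1 + k) : ℕ) : ℝ) := by exact_mod_cast hle
    _ = 2 ^ (k + 1) * 2 ^ j := by push_cast; ring
    _ ≤ 2 ^ (k + 1) * (N : ℝ) ^ ε := by gcongr

end Pool.Agent.THX.H59
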